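import Mathlib
import Pool.Agent.H577R3.Prod2

/-!
# Partially commutative groups of varieties: graphs with disconnected complement
-/

set_option autoImplicit false

namespace Pool.Agent.Y502.PM

open Pool.Agent.H577R3 Pool.Agent.H577R3.Prd

variable {V : Type}

/-- The normal subgroup of the free group on `V` generated by the commutators of adjacent
vertices. -/
def comms (Γ : SimpleGraph V) : Subgroup (FreeGroup V) :=
  Subgroup.normalClosure {w | ∃ u v, Γ.Adj u v ∧ w = FreeGroup.of u * FreeGroup.of v *
      (FreeGroup.of u)⁻¹ * (FreeGroup.of v)⁻¹}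

instance (Γ : SimpleGraph V) : (comms Γ).Normal := by
  unfold comms
  infer_instance

/-- The subgroup `N` is mapped into itself by all endomorphisms. -/
def FullyInvariant (N : Subgroup (FreeGroup V)) : Prop :=
  ∀ f : FreeGroup V →* FreeGroup V, ∀ w ∈ N, f w ∈ N

variable (Γ : SimpleGraph V) (N : Subgroup (FreeGroup V)) [N.Normal]

/-- The partially commutative group of the graph `Γ` modulo the laws `N`. -/
abbrev PC : Type := FreeGroup V ⧸ (comms Γ ⊔ N)

/-- The generators. -/
def gen (v : V) : PC Γ N := QuotientGroup.mk' (comms Γ ⊔ N) (FreeGroup.of v)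

variable {Γ N}

theorem gen_comm {u v : V} (h : Γ.Adj u v) : Commute (gen Γ N u) (gen Γ N v) := by
  show gen Γ N u * gen Γ N v = gen Γ N v * gen Γ N u
  rw [← mul_inv_eq_iff_eq_mul, ← mul_inv_eq_one]
  unfold gen
  rw [← map_inv, ← map_inv, ← map_mul, ← map_mul, ← map_mul]
  refine (QuotientGroup.eq_one_iff _).2 ?_
  exact Subgroup.mem_sup_left (Subgroup.subset_normalClosure ⟨_, _, h, rfl⟩)

theorem comms_le {K : Type} [Group K] (F : V → K) (hF : ∀ u v, Γ.Adj u v → Commute (F u) (F v)) :
    comms Γ ≤ (FreeGroup.lift F).ker := by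
  refine Subgroup.normalClosure_le_normal ?_
  rintro w ⟨u, v, huv, rfl⟩
  rw [SetLike.mem_coe, MonoidHom.mem_ker, map_mul, map_mul, map_mul, map_inv, map_inv,
    FreeGroup.lift_apply_of, FreeGroup.lift_apply_of, mul_inv_eq_one, mul_inv_eq_iff_eq_mul]
  exact hF u v huv

theorem pc_ext {K : Type} [Group K] {f g : PC Γ N →* K} (h : ∀ v, f (gen Γ N v) = g (gen Γ N v)) :
    f = g := by
  ext v
  exact h v

open Classical in
/-- The endomorphism of the free group which kills the generators outside `A`. -/
noncomputable def ret (A : Set V) : FreeGroup V →* FreeGroup V :=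
  FreeGroup.lift (fun v => if v ∈ A then FreeGroup.of v else 1)

theorem ret_le (hN : FullyInvariant N) (A : Set V) :
    comms Γ ⊔ N ≤ (comms Γ ⊔ N).comap (ret A) := by
  classical
  rw [sup_le_iff]
  constructor
  · have h1 : comms Γ ≤ (FreeGroup.lift (fun v => if v ∈ A then gen Γ N v else 1)).ker := by
      apply comms_le
      intro u v huv
      split_ifs
      · exact gen_comm huv
      · exact Commute.one_right _
      · exact Commute.one_left _
      · exact Commute.one_right _
    have h2 : (FreeGroup.lift (fun v => if v ∈ A then gen Γ N v else 1)) =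
        (QuotientGroup.mk' (comms Γ ⊔ N)).comp (ret A) := by
      ext v
      simp only [FreeGroup.lift_apply_of, MonoidHom.comp_apply, ret]
      split_ifs
      · rfl
      · rw [map_one]
    intro w hw
    have h3 := h1 hw
    rw [h2, MonoidHom.mem_ker] at h3
    exact (QuotientGroup.eq_one_iff (ret A w)).1 h3
  · intro w hw
    exact Subgroup.mem_sup_right (hN _ w hw)

/-- The endomorphism which kills the generators outside `A`. -/
noncomputable def e (hN : FullyInvariant N) (A : Set V) : PC Γ N →* PC Γ N :=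
  QuotientGroup.map _ _ (ret A) (ret_le hN A)

open Classical in
theorem e_gen (hN : FullyInvariant N) (A : Set V) (v : V) :
    e (Γ := Γ) hN A (gen Γ N v) = if v ∈ A then gen Γ N v else 1 := by
  unfold e gen
  rw [QuotientGroup.mk'_apply, QuotientGroup.map_mk]
  unfold ret
  rw [FreeGroup.lift_apply_of]
  split_ifs
  · rfl
  · rfl

theorem e_comp (hN : FullyInvariant N) (A B : Set V) (g : PC Γ N) :
    e hN A (e hN B g) = e hN (A ∩ B) g := by
  classical
  have h : (e (Γ := Γ) hN A).comp (e hN B) = e hN (A ∩ B) := by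
    apply pc_ext
    intro v
    rw [MonoidHom.comp_apply, e_gen, e_gen]
    by_cases h1 : v ∈ A <;> by_cases h2 : v ∈ B <;> simp [h1, h2, e_gen]
  exact DFunLike.congr_fun h g

theorem e_empty (hN : FullyInvariant N) (g : PC Γ N) : e hN ∅ g = 1 := by
  classical
  have h : e (Γ := Γ) hN ∅ = 1 := by
    apply pc_ext
    intro v
    rw [e_gen]
    simp
  exact DFunLike.congr_fun h g

theorem comm_hom {K ι κ : Type} [Group K] (f : FreeGroup ι →* K) (g : FreeGroup κ →* K)
    (h : ∀ i j, Commute (f (FreeGroup.of i)) (g (FreeGroup.of j))) (a : FreeGroup ι)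
    (b : FreeGroup κ) : Commute (f a) (g b) := by
  have h1 : ∀ i, ∀ b, Commute (f (FreeGroup.of i)) (g b) := by
    intro i b
    induction b using FreeGroup.induction_on with
    | C1 => rw [map_one]; exact Commute.one_right _
    | of j => exact h i j
    | inv_of j _ => rw [map_inv]; exact (h i j).inv_right
    | mul x y hx hy => rw [map_mul]; exact hx.mul_right hy
  induction a using FreeGroup.induction_on with
  | C1 => rw [map_one]; exact Commute.one_left _
  | of i => exact h1 i b
  | inv_of i _ => rw [map_inv]; exact (h1 i b).inv_left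
  | mul x y hx hy => rw [map_mul]; exact hx.mul_left hy

/-- The set `A` is completely joined to its complement. -/
def Joined (Γ : SimpleGraph V) (A : Set V) : Prop := ∀ a ∈ A, ∀ b ∉ A, Γ.Adj a b

theorem e_commute (hN : FullyInvariant N) {A : Set V} (hA : Joined Γ A) (x y : PC Γ N) :
    Commute (e hN A x) (e hN Aᶜ y) := by
  classical
  obtain ⟨x, rfl⟩ := QuotientGroup.mk'_surjective _ x
  obtain ⟨y, rfl⟩ := QuotientGroup.mk'_surjective _ y
  refine comm_hom ((e hN A).comp (QuotientGroup.mk' (comms Γ ⊔ N)))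
    ((e hN Aᶜ).comp (QuotientGroup.mk' (comms Γ ⊔ N))) (fun i j => ?_) x y
  show Commute (e hN A (gen Γ N i)) (e hN Aᶜ (gen Γ N j))
  rw [e_gen, e_gen]
  by_cases h1 : i ∈ A
  · rw [if_pos h1]
    by_cases h2 : j ∈ A
    · rw [if_neg (fun h => h h2)]
      exact Commute.one_right _
    · rw [if_pos (show j ∈ Aᶜ from h2)]
      exact gen_comm (hA i h1 j h2)
  · rw [if_neg h1]
    exact Commute.one_left _

theorem decomp (hN : FullyInvariant N) {A : Set V} (hA : Joined Γ A) (g : PC Γ N) :
    e hN A g * e hN Aᶜ g = g := by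
  classical
  let Φ : PC Γ N →* PC Γ N :=
    { toFun := fun g => e hN A g * e hN Aᶜ g
      map_one' := by simp
      map_mul' := fun x y => by
        rw [map_mul, map_mul]
        have := (e_commute hN hA y x).eq
        calc e hN A x * e hN A y * (e hN Aᶜ x * e hN Aᶜ y)
            = e hN A x * (e hN A y * e hN Aᶜ x) * e hN Aᶜ y := by group
          _ = e hN A x * (e hN Aᶜ x * e hN A y) * e hN Aᶜ y := by rw [this]
          _ = _ := by group }
  have h : Φ = MonoidHom.id _ := by
    apply pc_ext
    intro v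
    show e hN A (gen Γ N v) * e hN Aᶜ (gen Γ N v) = gen Γ N v
    rw [e_gen, e_gen]
    by_cases h1 : v ∈ A
    · rw [if_pos h1, if_neg (fun h => h h1), mul_one]
    · rw [if_neg h1, if_pos (show v ∈ Aᶜ from h1), one_mul]
  exact DFunLike.congr_fun h g

open Classical in
theorem infinite_range (hN : FullyInvariant N) (hZ : N ≤ commutator (FreeGroup V)) {A : Set V}
    (hA : A.Nonempty) : Infinite (e (Γ := Γ) hN A).range := by
  obtain ⟨v, hv⟩ := hA
  let F : FreeGroup V →* Multiplicative ℤ :=
    FreeGroup.lift (fun w => if w = v then Multiplicative.ofAdd (1 : ℤ) else 1)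
  have hle : comms Γ ⊔ N ≤ F.ker := by
    rw [sup_le_iff]
    exact ⟨comms_le _ (fun _ _ _ => Commute.all _ _),
      hZ.trans (Abelianization.commutator_subset_ker F)⟩
  let x : PC Γ N →* Multiplicative ℤ := QuotientGroup.lift _ F hle
  have hx : x (gen Γ N v) = Multiplicative.ofAdd (1 : ℤ) := by
    show QuotientGroup.lift _ F hle (QuotientGroup.mk' _ (FreeGroup.of v)) = _
    rw [QuotientGroup.mk'_apply, QuotientGroup.lift_mk, FreeGroup.lift_apply_of, if_pos rfl]
  have hmem : gen Γ N v ∈ (e (Γ := Γ) hN A).range :=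
    ⟨gen Γ N v, by rw [e_gen, if_pos hv]⟩
  refine Infinite.of_injective (fun n : ℤ =>
    ((⟨gen Γ N v, hmem⟩ : (e (Γ := Γ) hN A).range) ^ n)) ?_
  intro m n hmn
  have h1 : gen Γ N v ^ m = gen Γ N v ^ n := by
    have := congrArg Subtype.val hmn
    simpa using this
  have h2 := congrArg x h1
  rw [map_zpow, map_zpow, hx, ← ofAdd_zsmul, ← ofAdd_zsmul] at h2
  have h3 := Multiplicative.ofAdd.injective h2
  simpa using h3

/-- If some nonempty proper set of vertices is completely joined to its complement, then the group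
is not bi-interpretable with arithmetic. -/
theorem not_bi_of_joined (hN : FullyInvariant N) (hZ : N ≤ commutator (FreeGroup V)) {A : Set V}
    (hA : A.Nonempty) (hAc : Aᶜ.Nonempty) (hJ : Joined Γ A) : ¬ Bi.BiInterpNat (PC Γ N) := by
  have i1 := infinite_range (Γ := Γ) hN hZ hA
  have i2 := infinite_range (Γ := Γ) hN hZ hAc
  refine not_biInterpNat (p := (e (Γ := Γ) hN A).rangeRestrict)
    (q := (e (Γ := Γ) hN Aᶜ).rangeRestrict) ?_ ?_
  · rintro ⟨_, a, rfl⟩ ⟨_, b, rfl⟩
    refine ⟨e hN A a * e hN Aᶜ b, Subtype.ext ?_, Subtype.ext ?_⟩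
    · show e hN A (e hN A a * e hN Aᶜ b) = e hN A a
      rw [map_mul, e_comp, e_comp, Set.inter_self, Set.inter_compl_self, e_empty, mul_one]
    · show e hN Aᶜ (e hN A a * e hN Aᶜ b) = e hN Aᶜ b
      rw [map_mul, e_comp, e_comp, Set.inter_self, Set.compl_inter_self, e_empty, one_mul]
  · intro g g' h1 h2
    have h1' : e hN A g = e hN A g' := congrArg Subtype.val h1
    have h2' : e hN Aᶜ g = e hN Aᶜ g' := congrArg Subtype.val h2
    rw [← decomp hN hJ g, ← decomp hN hJ g', h1', h2']

/-- **Theorem.** If the partially commutative group of `Γ` modulo the laws `N` is bi-interpretable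
with arithmetic, then the complement of `Γ` is connected. -/
theorem connected_compl [Nonempty V] (hN : FullyInvariant N) (hZ : N ≤ commutator (FreeGroup V))
    (h : Bi.BiInterpNat (PC Γ N)) : Γᶜ.Connected := by
  by_contra hc
  have h1 : ¬ Γᶜ.Preconnected := fun hp => hc ⟨hp⟩
  rw [SimpleGraph.Preconnected] at h1
  push Not at h1
  obtain ⟨u, v, huv⟩ := h1
  refine not_bi_of_joined hN hZ (A := {w | Γᶜ.Reachable u w}) ⟨u, SimpleGraph.Reachable.refl u⟩
    ⟨v, huv⟩ ?_ h
  intro a ha b hb
  by_contra hab
  apply hb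
  have hne : a ≠ b := by
    rintro rfl
    exact hb ha
  have hadj : Γᶜ.Adj a b := by
    rw [SimpleGraph.compl_adj]
    exact ⟨hne, hab⟩
  exact (show Γᶜ.Reachable u a from ha).trans hadj.reachable

end Pool.Agent.Y502.PM
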