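import Mathlib
import Pool.Agent.Y502.PM.Join
import Pool.Agent.H577R3.Alg1
import Pool.Agent.H577R3.Key4

/-!
# Partially commutative solvable groups of complete multipartite graphs
-/

set_option autoImplicit false

namespace Pool.Agent.Y502.PM

open Pool.Agent.H577R3 Pool.Agent.Helper777.Prof

variable {V : Type}

theorem fi_ds (d : ℕ) : FullyInvariant (derivedSeries (FreeGroup V) d) := by
  intro f w hw
  exact map_derivedSeries_le_derivedSeries f d (Subgroup.mem_map_of_mem f hw)

theorem ds_le {d : ℕ} (hd : 1 ≤ d) : derivedSeries (FreeGroup V) d ≤ commutator (FreeGroup V) := by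
  rw [← derivedSeries_one]
  exact derivedSeries_antitone _ hd

/-- The partially commutative solvable group of derived length `d` of the graph `Γ`. -/
abbrev PCS (Γ : SimpleGraph V) (d : ℕ) : Type := PC Γ (derivedSeries (FreeGroup V) d)

variable {Γ : SimpleGraph V} {d : ℕ}

theorem ds_dq (ι : Type) : derivedSeries (Dq ι d) d = ⊥ := by
  rw [← map_derivedSeries_eq (QuotientGroup.mk'_surjective (derivedSeries (FreeGroup ι) d)) d,
    Subgroup.map_eq_bot_iff, QuotientGroup.ker_mk']

theorem ds_pcs : derivedSeries (PCS Γ d) d = ⊥ := by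
  rw [← map_derivedSeries_eq (QuotientGroup.mk'_surjective
    (comms Γ ⊔ derivedSeries (FreeGroup V) d)) d,
    Subgroup.map_eq_bot_iff, QuotientGroup.ker_mk']
  exact le_sup_right

theorem kill {ι K : Type} [Group K] (hK : derivedSeries K d = ⊥) (f : FreeGroup ι →* K) :
    derivedSeries (FreeGroup ι) d ≤ f.ker := by
  intro w hw
  rw [MonoidHom.mem_ker]
  have h := map_derivedSeries_le_derivedSeries f d (Subgroup.mem_map_of_mem f hw)
  rwa [hK, Subgroup.mem_bot] at h

section part

variable (P : Set V)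

/-- The homomorphism from the free solvable group on the vertices in `P`. -/
def sec : Dq P d →* PCS Γ d :=
  QuotientGroup.lift _ (FreeGroup.lift (fun v : P => gen Γ _ (v : V))) (kill ds_pcs _)

theorem sec_gen (v : P) : sec (Γ := Γ) (d := d) P (pn P d (FreeGroup.of v)) = gen Γ _ (v : V) := by
  unfold sec pn
  rw [QuotientGroup.mk'_apply, QuotientGroup.lift_mk, FreeGroup.lift_apply_of]

open Classical in
/-- The projection to the free solvable group on the vertices in the independent set `P`. -/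
noncomputable def pro (hP : ∀ u ∈ P, ∀ v ∈ P, ¬ Γ.Adj u v) : PCS Γ d →* Dq P d :=
  QuotientGroup.lift _ (FreeGroup.lift
    (fun v : V => if h : v ∈ P then pn P d (FreeGroup.of ⟨v, h⟩) else 1)) (by
    rw [sup_le_iff]
    refine ⟨comms_le _ ?_, kill (ds_dq _) _⟩
    intro u v huv
    by_cases h1 : u ∈ P
    · have h2 : v ∉ P := fun h => hP u h1 v h huv
      rw [dif_neg h2]
      exact Commute.one_right _
    · rw [dif_neg h1]
      exact Commute.one_left _)

open Classical in
theorem pro_gen (hP : ∀ u ∈ P, ∀ v ∈ P, ¬ Γ.Adj u v) (v : V) :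
    pro (d := d) P hP (gen Γ _ v) = if h : v ∈ P then pn P d (FreeGroup.of ⟨v, h⟩) else 1 := by
  unfold pro gen
  rw [QuotientGroup.mk'_apply, QuotientGroup.lift_mk, FreeGroup.lift_apply_of]

theorem dq_ext {ι K : Type} [Group K] (f g : Dq ι d →* K)
    (h : ∀ i, f (pn ι d (FreeGroup.of i)) = g (pn ι d (FreeGroup.of i))) : f = g := by
  ext i
  exact h i

theorem pro_sec (hP : ∀ u ∈ P, ∀ v ∈ P, ¬ Γ.Adj u v) (a : Dq P d) :
    pro P hP (sec (Γ := Γ) P a) = a := by
  have h : (pro P hP).comp (sec (Γ := Γ) (d := d) P) = MonoidHom.id _ := dq_ext _ _ (fun i => by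
    rw [MonoidHom.comp_apply, sec_gen, pro_gen, dif_pos i.2]
    rfl)
  exact DFunLike.congr_fun h a

theorem sec_pro (hP : ∀ u ∈ P, ∀ v ∈ P, ¬ Γ.Adj u v) (g : PCS Γ d) :
    sec P (pro P hP g) = e (fi_ds d) P g := by
  classical
  have h : (sec P).comp (pro (Γ := Γ) (d := d) P hP) = e (fi_ds d) P := by
    apply pc_ext
    intro v
    rw [MonoidHom.comp_apply, pro_gen, e_gen]
    by_cases h1 : v ∈ P
    · rw [dif_pos h1, if_pos h1, sec_gen]
    · rw [dif_neg h1, if_neg h1, map_one]
  exact DFunLike.congr_fun h g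

/-- A central element has trivial projection to an independent set with at least two vertices. -/
theorem e_center (hd : 2 ≤ d) (hP : ∀ u ∈ P, ∀ v ∈ P, ¬ Γ.Adj u v) (hP2 : P.Nontrivial)
    {z : PCS Γ d} (hz : z ∈ Subgroup.center (PCS Γ d)) : e (fi_ds d) P z = 1 := by
  classical
  have hnt : Nontrivial P := hP2.coe_sort
  obtain ⟨k, rfl⟩ : ∃ k, d = k + 2 := ⟨d - 2, by omega⟩
  have h1 : pro P hP z ∈ Subgroup.center (Dq P (k + 2)) := by
    rw [Subgroup.mem_center_iff]
    intro a
    rw [← pro_sec P hP a, ← map_mul, ← map_mul, Subgroup.mem_center_iff.1 hz]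
  rw [center_dq (ι := P) k, Subgroup.mem_bot] at h1
  rw [← sec_pro P hP, h1, map_one]

end part

/-- The part of a vertex of a complete multipartite graph. -/
def prt (Γ : SimpleGraph V) (v : V) : Set V := {w | ¬ Γ.Adj v w}

theorem prt_joined (hΓ : Γ.IsCompleteMultipartite) (v : V) : Joined Γ (prt Γ v) := by
  intro a ha b hb
  by_contra hab
  exact hb (hΓ.trans v a b ha hab)

theorem prt_indep (hΓ : Γ.IsCompleteMultipartite) (v : V) :
    ∀ u ∈ prt Γ v, ∀ w ∈ prt Γ v, ¬ Γ.Adj u w := by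
  intro u hu w hw
  exact hΓ.trans u v w (fun h => hu h.symm) hw

theorem center_trivial [Finite V] (hd : 2 ≤ d) (hΓ : Γ.IsCompleteMultipartite)
    (h2 : ∀ v, ∃ w, w ≠ v ∧ ¬ Γ.Adj v w) : Subgroup.center (PCS Γ d) = ⊥ := by
  classical
  have := Fintype.ofFinite V
  rw [eq_bot_iff]
  intro z hz
  rw [Subgroup.mem_bot]
  have h3 : ∀ v, e (fi_ds d) (prt Γ v)ᶜ z = z := by
    intro v
    obtain ⟨w, hw1, hw2⟩ := h2 v
    have h4 := e_center (prt Γ v) hd (prt_indep hΓ v)
      ⟨v, Γ.irrefl, w, hw2, hw1.symm⟩ hz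
    have h5 := decomp (fi_ds d) (prt_joined hΓ v) z
    rwa [h4, one_mul] at h5
  have h6 : ∀ F : Finset V, e (fi_ds d) {w | ∀ v ∈ F, w ∉ prt Γ v} z = z := by
    intro F
    induction F using Finset.induction_on with
    | empty =>
      have : {w : V | ∀ v ∈ (∅ : Finset V), w ∉ prt Γ v} = Set.univ := by
        ext w
        simp
      rw [this]
      have h7 := decomp (Γ := Γ) (fi_ds d) (A := Set.univ) (fun a _ b hb => absurd trivial hb) z
      rwa [Set.compl_univ, e_empty, mul_one] at h7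
    | insert v F hv ih =>
      have : {w : V | ∀ u ∈ insert v F, w ∉ prt Γ u} =
          (prt Γ v)ᶜ ∩ {w | ∀ u ∈ F, w ∉ prt Γ u} := by
        ext w
        simp
      rw [this, ← e_comp, ih, h3]
  have h8 : {w : V | ∀ v ∈ (Finset.univ : Finset V), w ∉ prt Γ v} = ∅ := by
    ext w
    simp only [Set.mem_ofPred_eq, Finset.mem_univ, true_implies, Set.mem_empty_iff_false,
      iff_false]
    intro h
    exact h w (Γ.irrefl)
  rw [← h6 Finset.univ, h8, e_empty]

theorem not_connected (hΓ : Γ.IsCompleteMultipartite) (h : Γᶜ.Connected) : Γ = ⊥ := by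
  ext u v
  simp only [SimpleGraph.bot_adj, iff_false]
  have key : ∀ {a b : V}, Γᶜ.Walk a b → ¬ Γ.Adj a b := by
    intro a b p
    induction p with
    | nil => exact Γ.irrefl
    | cons h1 _ ih =>
      rw [SimpleGraph.compl_adj] at h1
      exact hΓ.trans _ _ _ h1.2 ih
  obtain ⟨p⟩ := h.preconnected u v
  exact key p

theorem bi_bot {n : ℕ} (hn : 2 ≤ n) (hd : 2 ≤ d) :
    Bi.BiInterpNat (PCS (⊥ : SimpleGraph (Fin n)) d) := by
  obtain ⟨k, rfl⟩ : ∃ k, d = k + 2 := ⟨d - 2, by omega⟩
  have h1 : comms (⊥ : SimpleGraph (Fin n)) ⊔ derivedSeries (FreeGroup (Fin n)) (k + 2) =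
      derivedSeries (FreeGroup (Fin n)) (k + 2) := by
    have : comms (⊥ : SimpleGraph (Fin n)) = ⊥ := by
      unfold comms
      have h2 : {w : FreeGroup (Fin n) | ∃ u v, (⊥ : SimpleGraph (Fin n)).Adj u v ∧
          w = FreeGroup.of u * FreeGroup.of v * (FreeGroup.of u)⁻¹ * (FreeGroup.of v)⁻¹} = ∅ := by
        ext w
        simp
      rw [h2, Subgroup.normalClosure_empty]
    rw [this, bot_sup_eq]
  have h3 : ∀ (H : Subgroup (FreeGroup (Fin n))) [H.Normal],
      H = derivedSeries (FreeGroup (Fin n)) (k + 2) → Bi.BiInterpNat (FreeGroup (Fin n) ⧸ H) := by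
    intro H _ hH
    subst hH
    exact biAll n k hn
  exact h3 _ h1

end Pool.Agent.Y502.PM
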